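import Pool.Agent.Lib.LICH.Alg

/-! The spin connection, the Dirac operator and the Lichnerowicz formula in a local frame. -/

open Finset Filter Topology VectorField
open scoped RealInnerProductSpace

set_option linter.unusedSectionVars false

noncomputable section

namespace Pool.Agent.Lib.LICH

variable {E F S ι : Type*} [NormedAddCommGroup E] [NormedSpace ℝ E] [NormedAddCommGroup F]
  [NormedSpace ℝ F] [NormedAddCommGroup S] [InnerProductSpace ℝ S] [Fintype ι] [DecidableEq ι]

/-- Derivative along a vector field. -/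
def X (V : E → E) (u : E → F) (x : E) : F := fderiv ℝ u x (V x)

section X
variable {V : E → E} {u v : E → F} {x : E}

lemma X_congr (h : u =ᶠ[𝓝 x] v) : X V u x = X V v x := by rw [X, X, h.fderiv_eq]

lemma X_add (hu : DifferentiableAt ℝ u x) (hv : DifferentiableAt ℝ v x) :
    X V (fun y => u y + v y) x = X V u x + X V v x := by rw [X, fderiv_fun_add hu hv]; rfl

lemma X_sub (hu : DifferentiableAt ℝ u x) (hv : DifferentiableAt ℝ v x) :
    X V (fun y => u y - v y) x = X V u x - X V v x := by rw [X, fderiv_fun_sub hu hv]; rfl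

lemma X_neg : X V (fun y => -u y) x = -X V u x := by rw [X, fderiv_fun_neg]; rfl

lemma X_sum {κ : Type*} {s : Finset κ} {u : κ → E → F} (h : ∀ k ∈ s, DifferentiableAt ℝ (u k) x) :
    X V (fun y => ∑ k ∈ s, u k y) x = ∑ k ∈ s, X V (u k) x := by
  rw [X, fderiv_fun_sum h, _root_.sum_apply]; rfl

lemma X_smul {f : E → ℝ} (hf : DifferentiableAt ℝ f x) (hu : DifferentiableAt ℝ u x) :
    X V (fun y => f y • u y) x = f x • X V u x + X V f x • u x := by
  rw [X, fderiv_fun_smul hf hu]; rfl

lemma X_mul {f g : E → ℝ} (hf : DifferentiableAt ℝ f x) (hg : DifferentiableAt ℝ g x) :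
    X V (fun y => f y * g y) x = f x * X V g x + X V f x * g x := X_smul hf hg

lemma X_const (a : F) : X V (fun _ => a) x = 0 := by simp [X]

lemma X_clm {G : Type*} [NormedAddCommGroup G] [NormedSpace ℝ G] {T : E → F →L[ℝ] G}
    (hT : DifferentiableAt ℝ T x) (hu : DifferentiableAt ℝ u x) :
    X V (fun y => T y (u y)) x = T x (X V u x) + X V T x (u x) := by
  rw [X, fderiv_clm_apply hT hu]; rfl

lemma X_map {G : Type*} [NormedAddCommGroup G] [NormedSpace ℝ G] (T : F →L[ℝ] G)
    (hu : DifferentiableAt ℝ u x) : X V (fun y => T (u y)) x = T (X V u x) := by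
  rw [X_clm (T := fun _ => T) (differentiableAt_const T) hu, X_const]; simp

lemma X_inner {u v : E → S} (hu : DifferentiableAt ℝ u x) (hv : DifferentiableAt ℝ v x) :
    X V (fun y => ⟪u y, v y⟫) x = ⟪X V u x, v x⟫ + ⟪u x, X V v x⟫ := by
  rw [X, fderiv_inner_apply ℝ hu hv, add_comm]; rfl

lemma diff_X (hV : DifferentiableAt ℝ V x) (hu : ContDiffAt ℝ 2 u x) :
    DifferentiableAt ℝ (X V u) x :=
  ((hu.fderiv_right (m := 1) le_rfl).differentiableAt one_ne_zero).clm_apply hV

lemma contDiffAt_X {m n : WithTop ℕ∞} (hV : ContDiffAt ℝ m V x) (hu : ContDiffAt ℝ n u x)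
    (h : m + 1 ≤ n) : ContDiffAt ℝ m (X V u) x := (hu.fderiv_right h).clm_apply hV

lemma X_comm {W : E → E} (hV : DifferentiableAt ℝ V x) (hW : DifferentiableAt ℝ W x)
    (hu : ContDiffAt ℝ 2 u x) :
    X V (X W u) x - X W (X V u) x = fderiv ℝ u x (lieBracket ℝ V W x) :=
  (fderiv_apply_lieBracket hu (by simp) hW hV).symm

end X

/-- Local data: sign, Clifford matrices, frame and structure functions. -/
structure Dat (E S ι : Type*) [NormedAddCommGroup S] [InnerProductSpace ℝ S] where
  σ : ℝ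
  γ : ι → S →L[ℝ] S
  e : ι → E → E
  c : ι → ι → ι → E → ℝ

/-- Christoffel symbols `g (∇_i e_j, e_k)`. -/
def chr (c : ι → ι → ι → E → ℝ) (i j k : ι) (x : E) : ℝ := (c i j k x - c j k i x + c k i j x) / 2

/-- Curvature `g (R (e_i, e_j) e_k, e_l)`. -/
def riem (e : ι → E → E) (c : ι → ι → ι → E → ℝ) (i j k l : ι) (x : E) : ℝ :=
  X (e i) (chr c j k l) x - X (e j) (chr c i k l) x +
    ∑ m, (chr c j k m x * chr c i m l x - chr c i k m x * chr c j m l x - c i j m x * chr c m k l x)

/-- Scalar curvature. -/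
def scal (e : ι → E → E) (c : ι → ι → ι → E → ℝ) (x : E) : ℝ := ∑ i, ∑ j, riem e c i j j i x

/-- Divergence of `e j`. -/
def dv (c : ι → ι → ι → E → ℝ) (j : ι) (x : E) : ℝ := ∑ i, c i j i x

/-- `e` is a frame near `x` with structure functions `c`. -/
structure FrameAt (e : ι → E → E) (c : ι → ι → ι → E → ℝ) (x : E) : Prop where
  sm : ∀ i, ContDiffAt ℝ 2 (e i) x
  smc : ∀ i j k, DifferentiableAt ℝ (c i j k) x
  br : ∀ i j, lieBracket ℝ (e i) (e j) =ᶠ[𝓝 x] fun y => ∑ k, c i j k y • e k y
  li : ∀ᶠ y in 𝓝 x, LinearIndependent ℝ fun i => e i y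

section frame
variable {e : ι → E → E} {c : ι → ι → ι → E → ℝ} {x : E}

lemma FrameAt.de (h : FrameAt e c x) (i : ι) : DifferentiableAt ℝ (e i) x :=
  (h.sm i).differentiableAt two_ne_zero

lemma FrameAt.skew_ev (h : FrameAt e c x) : ∀ᶠ y in 𝓝 x, ∀ i j k, c i j k y = -c j i k y := by
  filter_upwards [h.li, eventually_all.2 fun i => eventually_all.2 fun j => h.br i j]
    with y h1 h2 i j k
  have h3 := Fintype.linearIndependent_iff.1 h1 (fun k => c i j k y + c j i k y) (by
    simp only [add_smul, sum_add_distrib, ← h2]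
    rw [lieBracket_swap, neg_add_cancel]) k
  linarith

lemma FrameAt.skew (h : FrameAt e c x) (i j k : ι) : c i j k x = -c j i k x :=
  h.skew_ev.self_of_nhds i j k

lemma chr_skew (h : ∀ i j k, c i j k x = -c j i k x) (i j k : ι) :
    chr c i j k x = -chr c i k j x := by
  simp only [chr]; linarith [h i j k, h j k i, h k i j]

lemma chr_tors (h : ∀ i j k, c i j k x = -c j i k x) (i j k : ι) :
    chr c i j k x - chr c j i k x = c i j k x := by
  simp only [chr]; linarith [h i j k, h j k i, h k i j]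

lemma chr_dv (h : ∀ i j k, c i j k x = -c j i k x) (k : ι) : ∑ j, chr c j j k x = -dv c k x := by
  rw [dv, ← sum_neg_distrib]
  exact sum_congr rfl fun j _ => by simp only [chr]; linarith [h j j k, h j k j]

lemma FrameAt.dchr (h : FrameAt e c x) (i j k : ι) : DifferentiableAt ℝ (chr c i j k) x :=
  by
  have := (((h.smc i j k).fun_sub (h.smc j k i)).fun_add (h.smc k i j)).mul_const (2⁻¹ : ℝ)
  simp only [← div_eq_mul_inv] at this
  exact this

lemma FrameAt.jac (h : FrameAt e c x) (i j k : ι) :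
    lieBracket ℝ (e i) (lieBracket ℝ (e j) (e k)) x =
      ∑ l, (X (e i) (c j k l) x + ∑ m, c j k m x * c i m l x) • e l x := by
  have h1 : lieBracket ℝ (e i) (fun y => ∑ m, c j k m y • e m y) x =
      ∑ m, lieBracket ℝ (e i) (fun y => c j k m y • e m y) x := by
    simp only [lieBracket, sum_sub_distrib, map_sum]
    rw [fderiv_fun_sum fun m _ => (h.smc _ _ _).fun_smul (h.de _), _root_.sum_apply]
  rw [EventuallyEq.rfl.lieBracket_vectorField_eq (h.br j k), h1]
  simp only [lieBracket_smul_right (h.smc _ _ _) (h.de _), (h.br _ _).self_of_nhds, add_smul,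
    sum_add_distrib, smul_sum, sum_smul, smul_smul, X]
  rw [sum_comm]

lemma FrameAt.curv (h : FrameAt e c x) : Curv fun i j k l => riem e c i j k l x where
  a12 i j k l := by
    simp only [riem, sum_sub_distrib, h.skew i j, neg_mul, sum_neg_distrib]
    ring
  a34 i j k l := by
    have h1 : ∀ i j, X (e i) (chr c j k l) x = -X (e i) (chr c j l k) x := fun i j => by
      rw [← X_neg]
      exact X_congr (h.skew_ev.mono fun y hy => chr_skew hy _ _ _)
    rw [riem, riem, h1, h1, neg_add, ← sum_neg_distrib]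
    congr 1
    · ring
    · refine sum_congr rfl fun m _ => ?_
      rw [chr_skew h.skew i l m, chr_skew h.skew j l m, chr_skew h.skew i m k,
        chr_skew h.skew j m k, chr_skew h.skew m l k]
      ring
  bia i j k l := by
    have h1 : ∀ i j k, X (e i) (chr c j k l) x - X (e i) (chr c k j l) x = X (e i) (c j k l) x :=
      fun i j k => by
        rw [← X_sub (h.dchr _ _ _) (h.dchr _ _ _)]
        exact X_congr (h.skew_ev.mono fun y hy => chr_tors hy _ _ _)
    have h2 := leibniz_identity_lieBracket (𝕜 := ℝ) (by simp) (h.sm i) (h.sm j) (h.sm k)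
    rw [lieBracket_swap (V := lieBracket ℝ (e i) (e j)), h.jac, h.jac, h.jac] at h2
    have h3 := Fintype.linearIndependent_iff.1 h.li.self_of_nhds (fun l =>
      (X (e i) (c j k l) x + ∑ m, c j k m x * c i m l x) +
        (X (e k) (c i j l) x + ∑ m, c i j m x * c k m l x) -
        (X (e j) (c i k l) x + ∑ m, c i k m x * c j m l x)) (by
      simp only [sub_smul, add_smul _ (_ + _ : ℝ), sum_add_distrib, sum_sub_distrib, h2]
      abel) l
    have h4 : X (e j) (c i k l) x = -X (e j) (c k i l) x := by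
      rw [← X_neg]
      exact X_congr (h.skew_ev.mono fun y hy => hy _ _ _)
    have h5 : ∑ m, (chr c j k m x * chr c i m l x - chr c i k m x * chr c j m l x -
        c i j m x * chr c m k l x) + ∑ m, (chr c k i m x * chr c j m l x -
        chr c j i m x * chr c k m l x - c j k m x * chr c m i l x) +
        ∑ m, (chr c i j m x * chr c k m l x - chr c k j m x * chr c i m l x -
        c k i m x * chr c m j l x) = ∑ m, c j k m x * c i m l x + ∑ m, c i j m x * c k m l x -
          ∑ m, c i k m x * c j m l x := by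
      simp only [← sum_add_distrib, ← sum_sub_distrib]
      refine sum_congr rfl fun m _ => ?_
      rw [h.skew i k, ← chr_tors h.skew j k, ← chr_tors h.skew i m, ← chr_tors h.skew i j,
        ← chr_tors h.skew k m, ← chr_tors h.skew k i, ← chr_tors h.skew j m]
      ring
    simp only [riem]
    linarith [h1 i j k, h1 j k i, h1 k i j]

end frame

namespace Dat

variable (D : Dat E S ι)

/-- Clifford relations and adjoints. -/
structure Cl : Prop where
  rel : Rel D.σ D.γ
  adj : ∀ i v w, ⟪D.γ i v, w⟫ = -D.σ * ⟪v, D.γ i w⟫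

/-- The connection form. -/
def con (i : ι) (x : E) : S →L[ℝ] S := lam D.σ D.γ fun j k => chr D.c i j k x

/-- The covariant derivative along `e i`. -/
def nab (i : ι) (u : E → S) (x : E) : S := X (D.e i) u x + D.con i x (u x)

/-- The Dirac operator. -/
def dir (u : E → S) (x : E) : S := ∑ i, D.γ i (D.nab i u x)

/-- The connection Laplacian `∇^* ∇`. -/
def lap (u : E → S) (x : E) : S :=
  -∑ i, (D.nab i (D.nab i u) x - ∑ k, chr D.c i i k x • D.nab k u x)

variable {D} {x : E} {u v : E → S} {f : E → ℝ}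

lemma lam_adj (h : D.Cl) {M : ι → ι → ℝ} (hM : ∀ k l, M k l = -M l k) (v w : S) :
    ⟪lam D.σ D.γ M v, w⟫ = -⟪v, lam D.σ D.γ M w⟫ := by
  have h1 : ∀ k l, ⟪D.γ k (D.γ l v), w⟫ = ⟪v, D.γ l (D.γ k w)⟫ := fun k l => by
    rw [h.adj, h.adj]
    linear_combination ⟪v, D.γ l (D.γ k w)⟫ * h.rel.sq
  simp only [lam, _root_.smul_apply, _root_.sum_apply, mul_apply_eq_comp,
    inner_smul_left, inner_smul_right, sum_inner, inner_sum, h1, conj_trivial]
  rw [sum_comm, ← mul_neg, ← sum_neg_distrib]
  refine congrArg _ (sum_congr rfl fun k _ => ?_)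
  rw [← sum_neg_distrib]
  exact sum_congr rfl fun l _ => by rw [hM l k]; ring

lemma dcon (h : FrameAt D.e D.c x) (i : ι) : DifferentiableAt ℝ (D.con i) x :=
  (DifferentiableAt.fun_sum fun k _ => DifferentiableAt.fun_sum fun l _ =>
    (h.dchr i k l).smul_const _).fun_const_smul _

lemma X_con (h : FrameAt D.e D.c x) (V : E → E) (i : ι) :
    X V (D.con i) x = lam D.σ D.γ fun j k => X V (chr D.c i j k) x := by
  have h1 : ∀ k l, DifferentiableAt ℝ (fun y => chr D.c i k l y • (D.γ k * D.γ l)) x :=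
    fun k l => (h.dchr i k l).smul_const _
  have h2 := fun k => DifferentiableAt.fun_sum fun l (_ : l ∈ univ) => h1 k l
  change X V (fun y => (D.σ / 4) • ∑ k, ∑ l, chr D.c i k l y • (D.γ k * D.γ l)) x = _
  rw [X_smul (differentiableAt_const _) (DifferentiableAt.fun_sum fun k _ => h2 k), X_const,
    zero_smul, add_zero, X_sum fun k _ => h2 k, lam]
  refine congrArg _ (sum_congr rfl fun k _ => ?_)
  rw [X_sum fun l _ => h1 k l]
  refine sum_congr rfl fun l _ => ?_
  rw [X_smul (h.dchr i k l) (differentiableAt_const _), X_const, smul_zero, zero_add]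

lemma nab_congr (i : ι) (h : u =ᶠ[𝓝 x] v) : D.nab i u x = D.nab i v x := by
  rw [nab, nab, X_congr h, h.self_of_nhds]

lemma dir_congr (h : u =ᶠ[𝓝 x] v) : D.dir u x = D.dir v x := by
  simp only [dir, nab_congr _ h]

lemma nab_add (i : ι) (hu : DifferentiableAt ℝ u x) (hv : DifferentiableAt ℝ v x) :
    D.nab i (fun y => u y + v y) x = D.nab i u x + D.nab i v x := by
  simp only [nab, X_add hu hv, map_add]; abel

lemma nab_sum {κ : Type*} {s : Finset κ} {u : κ → E → S} (i : ι)
    (h : ∀ k ∈ s, DifferentiableAt ℝ (u k) x) :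
    D.nab i (fun y => ∑ k ∈ s, u k y) x = ∑ k ∈ s, D.nab i (u k) x := by
  simp only [nab, X_sum h, map_sum, sum_add_distrib]

lemma nab_smul (i : ι) (hf : DifferentiableAt ℝ f x) (hu : DifferentiableAt ℝ u x) :
    D.nab i (fun y => f y • u y) x = f x • D.nab i u x + X (D.e i) f x • u x := by
  simp only [nab, X_smul hf hu, map_smul, smul_add]; abel

lemma dir_add (hu : DifferentiableAt ℝ u x) (hv : DifferentiableAt ℝ v x) :
    D.dir (fun y => u y + v y) x = D.dir u x + D.dir v x := by
  simp only [dir, nab_add _ hu hv, map_add, sum_add_distrib]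

lemma dir_sum {κ : Type*} {s : Finset κ} {u : κ → E → S}
    (h : ∀ k ∈ s, DifferentiableAt ℝ (u k) x) :
    D.dir (fun y => ∑ k ∈ s, u k y) x = ∑ k ∈ s, D.dir (u k) x := by
  simp only [dir, nab_sum _ h, map_sum]
  exact sum_comm

/-- Leibniz rule: the commutator of the Dirac operator with a function. -/
lemma dir_smul (hf : DifferentiableAt ℝ f x) (hu : DifferentiableAt ℝ u x) :
    D.dir (fun y => f y • u y) x = f x • D.dir u x + ∑ i, X (D.e i) f x • D.γ i (u x) := by
  simp only [dir, nab_smul _ hf hu, map_add, map_smul, sum_add_distrib, smul_sum]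

lemma dgam (hu : DifferentiableAt ℝ u x) (i : ι) : DifferentiableAt ℝ (fun y => D.γ i (u y)) x :=
  (D.γ i).differentiableAt.comp x hu

lemma dnab (h : FrameAt D.e D.c x) (hu : ContDiffAt ℝ 2 u x) (i : ι) :
    DifferentiableAt ℝ (D.nab i u) x :=
  (diff_X (h.de i) hu).fun_add ((dcon h i).clm_apply (hu.differentiableAt two_ne_zero))

lemma ddir (h : FrameAt D.e D.c x) (hu : ContDiffAt ℝ 2 u x) : DifferentiableAt ℝ (D.dir u) x :=
  DifferentiableAt.fun_sum fun i _ => dgam (dnab h hu i) i

lemma nab_gam (hc : D.Cl) (h : ∀ i j k, D.c i j k x = -D.c j i k x) (hu : DifferentiableAt ℝ u x)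
    (i j : ι) : D.nab i (fun y => D.γ j (u y)) x =
      D.γ j (D.nab i u x) + ∑ k, chr D.c i j k x • D.γ k (u x) := by
  have h1 := congrArg (· (u x)) (hc.rel.lam_gam (M := fun j k => chr D.c i j k x)
    (chr_skew h i) j)
  simp only [_root_.sub_apply, mul_apply_eq_comp, _root_.sum_apply,
    _root_.smul_apply] at h1
  rw [nab, nab, X_map _ hu, map_add, ← h1, con]
  abel

/-- The curvature of the spin connection. -/
lemma nab_comm (hc : D.Cl) (h : FrameAt D.e D.c x) (hu : ContDiffAt ℝ 2 u x) (i j : ι) :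
    D.nab i (D.nab j u) x - D.nab j (D.nab i u) x - ∑ k, D.c i j k x • D.nab k u x =
      lam D.σ D.γ (fun k l => riem D.e D.c i j k l x) (u x) := by
  have hu' := hu.differentiableAt two_ne_zero
  have h1 : ∀ i j, D.nab i (D.nab j u) x = X (D.e i) (X (D.e j) u) x + (D.con j x (X (D.e i) u x) +
      X (D.e i) (D.con j) x (u x)) + D.con i x (X (D.e j) u x + D.con j x (u x)) := fun i j => by
    rw [← X_clm (dcon h j) hu', ← X_add (diff_X (h.de j) hu) ((dcon h j).clm_apply hu')]
    rfl
  have h2 := X_comm (h.de i) (h.de j) hu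
  rw [(h.br i j).self_of_nhds] at h2
  have h3 := hc.rel.lam_lam (M := fun j k => chr D.c i j k x) (N := fun k l => chr D.c j k l x)
    (chr_skew h.skew i)
  have h4 : lam D.σ D.γ (fun k l => riem D.e D.c i j k l x) = X (D.e i) (D.con j) x -
      X (D.e j) (D.con i) x + ((D.con i x * D.con j x - D.con j x * D.con i x) -
        ∑ k, D.c i j k x • D.con k x) := by
    simp only [X_con h, con, h3, ← lam_smul, ← lam_sum, ← lam_sub, ← lam_add, riem,
      sum_sub_distrib]
  simp only [map_sum, map_smul] at h2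
  rw [h1, h1]
  simp only [h4, nab, smul_add, sum_add_distrib, map_add, _root_.sub_apply,
    _root_.add_apply, mul_apply_eq_comp, _root_.sum_apply,
    _root_.smul_apply, X] at h2 ⊢
  rw [← h2]
  abel

/-- The pointwise Lichnerowicz formula. -/
theorem dir_dir (hc : D.Cl) (h : FrameAt D.e D.c x) (hu : ContDiffAt ℝ 2 u x) :
    D.dir (D.dir u) x = D.σ • (D.lap u x + (scal D.e D.c x / 4) • u x) := by
  let H : ι → ι → S := fun i j => D.nab i (D.nab j u) x - ∑ k, chr D.c i j k x • D.nab k u x
  have h1 : D.dir (D.dir u) x = ∑ i, ∑ j, (D.γ i * D.γ j) • H i j := by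
    refine sum_congr rfl fun i _ => ?_
    change D.γ i (D.nab i (fun y => ∑ j, D.γ j (D.nab j u y)) x) = _
    rw [nab_sum _ fun j _ => dgam (dnab h hu j) j]
    simp only [nab_gam hc h.skew (dnab h hu _), H, ContinuousLinearMap.smul_def,
      mul_apply_eq_comp, map_sub, map_add, map_sum, map_smul, sum_add_distrib,
      sum_sub_distrib]
    rw [sub_eq_add_neg, sum_comm, ← sum_neg_distrib]
    refine congrArg _ (sum_congr rfl fun k _ => ?_)
    rw [← sum_neg_distrib]
    exact sum_congr rfl fun l _ => by rw [chr_skew h.skew i l k, neg_smul]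
  have h2 : ∀ i j, H i j - H j i = lam D.σ D.γ (fun k l => riem D.e D.c i j k l x) (u x) :=
    fun i j => by
      rw [← nab_comm hc h hu]
      simp only [H, ← chr_tors h.skew i j, sub_smul, sum_sub_distrib]
      abel
  have h3 := congrArg (· (u x)) (hc.rel.contract h.curv)
  simp only [_root_.sum_apply, mul_apply_eq_comp, _root_.smul_apply,
    one_apply_eq_self] at h3
  have : IsScalarTower ℝ (S →L[ℝ] S) S := ⟨fun _ _ _ => rfl⟩
  rw [h1, hc.rel.split]
  simp only [h2, ContinuousLinearMap.smul_def, mul_apply_eq_comp, h3, lap, scal, H]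
  module

lemma X_inner_nab (hc : D.Cl) (h : ∀ i j k, D.c i j k x = -D.c j i k x)
    (hu : DifferentiableAt ℝ u x) (hv : DifferentiableAt ℝ v x) (i : ι) :
    X (D.e i) (fun y => ⟪u y, v y⟫) x = ⟪D.nab i u x, v x⟫ + ⟪u x, D.nab i v x⟫ := by
  rw [X_inner hu hv, nab, nab, inner_add_left, inner_add_right, con, lam_adj hc (chr_skew h i)]
  ring

/-- Green formula for the Dirac operator, pointwise. -/
theorem green_dir (hc : D.Cl) (h : ∀ i j k, D.c i j k x = -D.c j i k x)
    (hu : DifferentiableAt ℝ u x) (hv : DifferentiableAt ℝ v x) :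
    ⟪D.dir u x, v x⟫ - D.σ * ⟪u x, D.dir v x⟫ = ∑ j, (X (D.e j) (fun y => ⟪D.γ j (u y), v y⟫) x +
      dv D.c j x * ⟪D.γ j (u x), v x⟫) := by
  have h1 : ∀ j, X (D.e j) (fun y => ⟪D.γ j (u y), v y⟫) x = ⟪D.γ j (D.nab j u x), v x⟫ +
      ∑ k, chr D.c j j k x * ⟪D.γ k (u x), v x⟫ - D.σ * ⟪u x, D.γ j (D.nab j v x)⟫ := fun j => by
    rw [X_inner_nab hc h (dgam hu j) hv, nab_gam hc h hu, hc.adj j (u x)]
    simp only [inner_add_left, sum_inner, real_inner_smul_left]
    ring
  simp only [h1, dir, sum_inner, inner_sum, sum_add_distrib, sum_sub_distrib, mul_sum]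
  rw [sum_comm]
  simp only [← sum_mul, chr_dv h, neg_mul, sum_neg_distrib]
  ring

/-- Green formula for the connection Laplacian, pointwise. -/
theorem green_lap (hc : D.Cl) (h : FrameAt D.e D.c x) (hu : ContDiffAt ℝ 2 u x)
    (hv : DifferentiableAt ℝ v x) : ∑ i, ⟪D.nab i u x, D.nab i v x⟫ - ⟪D.lap u x, v x⟫ =
      ∑ j, (X (D.e j) (fun y => ⟪D.nab j u y, v y⟫) x + dv D.c j x * ⟪D.nab j u x, v x⟫) := by
  simp only [X_inner_nab hc h.skew (dnab h hu _) hv, lap, inner_neg_left, sum_inner, inner_sub_left,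
    real_inner_smul_left, sum_add_distrib, sum_sub_distrib]
  rw [sum_comm]
  simp only [← sum_mul, chr_dv h.skew, neg_mul, sum_neg_distrib]
  ring

/-- The Lichnerowicz formula in divergence form. -/
theorem green_lich (hc : D.Cl) (h : FrameAt D.e D.c x) (hu : ContDiffAt ℝ 2 u x)
    (hv : DifferentiableAt ℝ v x) :
    ∑ i, ⟪D.nab i u x, D.nab i v x⟫ + scal D.e D.c x / 4 * ⟪u x, v x⟫ - ⟪D.dir u x, D.dir v x⟫ =
      ∑ j, (X (D.e j) (fun y => ⟪D.nab j u y, v y⟫) x + dv D.c j x * ⟪D.nab j u x, v x⟫) +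
        D.σ * ∑ j, (X (D.e j) (fun y => ⟪D.γ j (D.dir u y), v y⟫) x +
          dv D.c j x * ⟪D.γ j (D.dir u x), v x⟫) := by
  rw [← green_lap hc h hu hv, ← green_dir hc h.skew (ddir h hu) hv, dir_dir hc h hu]
  simp only [real_inner_smul_left, inner_add_left]
  linear_combination (⟪D.dir u x, D.dir v x⟫ - ⟪D.lap u x, v x⟫ -
    scal D.e D.c x / 4 * ⟪u x, v x⟫) * hc.rel.sq

end Dat

end Pool.Agent.Lib.LICH
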