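import Pool.Agent.Lib.LICH.Loc

/-! Integration by parts against the Riemannian density of a frame; integrated Green and
Lichnerowicz formulas. -/

open Finset Filter Topology VectorField MeasureTheory Module
open scoped RealInnerProductSpace

set_option linter.unusedSectionVars false

noncomputable section

namespace Pool.Agent.Lib.LICH

variable {E S ι : Type*} [NormedAddCommGroup E] [NormedSpace ℝ E] [FiniteDimensional ℝ E]
  [NormedAddCommGroup S] [InnerProductSpace ℝ S] [Fintype ι] [DecidableEq ι]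

/-- The Riemannian density of the metric with orthonormal frame `e`. -/
def rho (b : Basis ι ℝ E) (e : ι → E → E) (x : E) : ℝ := |b.det fun i => e i x|⁻¹

lemma contDiff_of_tsupp {F : Type*} [NormedAddCommGroup F] [NormedSpace ℝ F] {n : WithTop ℕ∞}
    {f : E → F} (h : ∀ x ∈ tsupport f, ContDiffAt ℝ n f x) : ContDiff ℝ n f :=
  contDiff_iff_contDiffAt.2 fun x => by
    by_cases hx : x ∈ tsupport f
    · exact h x hx
    · exact contDiffAt_const.congr_of_eventuallyEq (notMem_tsupport_iff_eventuallyEq.1 hx)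

/-- The determinant as a continuous multilinear map. -/
def detC (b : Basis ι ℝ E) : ContinuousMultilinearMap ℝ (fun _ : ι => E) ℝ :=
  ⟨b.det.toMultilinearMap, Continuous.matrix_det (A := fun v => b.toMatrix v) (continuous_matrix
    fun i j => (b.coord i).continuous_of_finiteDimensional.comp (continuous_apply j))⟩

variable (b : Basis ι ℝ E) {e : ι → E → E} {c : ι → ι → ι → E → ℝ} {x : E}

lemma contDiffAt_det {n : WithTop ℕ∞} (h : ∀ i, ContDiffAt ℝ n (e i) x) :
    ContDiffAt ℝ n (fun y => b.det fun i => e i y) x :=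
  (detC b).contDiff.contDiffAt.comp x (contDiffAt_pi.2 h)

lemma det_ne (h : LinearIndependent ℝ fun i => e i x) : (b.det fun i => e i x) ≠ 0 :=
  ((b.is_basis_iff_det).1 ⟨h, h.span_eq_top_of_card_eq_finrank'
    (finrank_eq_card_basis b).symm⟩).ne_zero

lemma rho_pos (h : LinearIndependent ℝ fun i => e i x) : 0 < rho b e x :=
  inv_pos.2 (abs_pos.2 (det_ne b h))

lemma contDiffAt_rho {n : ℕ∞} (h : ∀ i, ContDiffAt ℝ n (e i) x)
    (h' : LinearIndependent ℝ fun i => e i x) : ContDiffAt ℝ n (rho b e) x :=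
  ((contDiffAt_det b h).abs (det_ne b h')).inv (abs_ne_zero.2 (det_ne b h'))

lemma rho_div (h : FrameAt e c x) (j : ι) :
    X (e j) (rho b e) x + rho b e x * ∑ i, b.repr (fderiv ℝ (e j) x (b i)) i =
      rho b e x * dv c j x := by
  have hli := h.li.self_of_nhds
  have hsp := (hli.span_eq_top_of_card_eq_finrank' (finrank_eq_card_basis b).symm).ge
  let β := Basis.mk hli hsp
  have hβ : ∀ i, β i = e i x := fun i => Basis.mk_apply hli hsp i
  set d : ℝ := b.det fun i => e i x with hd
  have hd0 : d ≠ 0 := det_ne b hli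
  have h1 : HasFDerivAt (fun y => b.det fun i => e i y) _ x :=
    ((detC b).hasFDerivAt (x := fun i => e i x)).comp x
      (hasFDerivAt_pi.2 fun i => (h.de i).hasFDerivAt)
  have h2 := (((hasDerivAt_abs hd0).inv (abs_ne_zero.2 hd0)).comp_hasFDerivAt x h1).fderiv
  have h3 : X (e j) (rho b e) x = -(rho b e x * ∑ i, β.repr (fderiv ℝ (e i) x (e j x)) i) := by
    have h4 : ∀ i w, b.det (Function.update (fun i => e i x) i w) = d * β.repr w i := fun i w =>
      (congrArg (· w) (b.det_smul_mk_coord_eq_det_update hli hsp i)).symm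
    have h5 : -(SignType.sign d : ℝ) / |d| ^ 2 * d = -|d|⁻¹ := by
      rcases hd0.lt_or_gt with h6 | h6
      · rw [sign_neg h6, abs_of_neg h6]; simp; field_simp
      · rw [sign_pos h6, abs_of_pos h6]; simp; field_simp
    refine (congrArg (· (e j x)) h2).trans ?_
    simp only [_root_.smul_apply, ContinuousLinearMap.comp_apply,
      ContinuousMultilinearMap.linearDeriv_apply, ContinuousLinearMap.pi_apply, smul_eq_mul]
    change _ * ∑ i, b.det _ = -(|d|⁻¹ * _)
    simp only [h4, ← mul_sum]
    rw [← mul_assoc, h5, neg_mul]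
  have h4 : ∑ i, b.repr (fderiv ℝ (e j) x (b i)) i = ∑ i, β.repr (fderiv ℝ (e j) x (e i x)) i := by
    have h5 := (LinearMap.trace_eq_matrix_trace ℝ b (fderiv ℝ (e j) x).toLinearMap).symm.trans
      (LinearMap.trace_eq_matrix_trace ℝ β (fderiv ℝ (e j) x).toLinearMap)
    simpa [Matrix.trace, LinearMap.toMatrix_apply, hβ] using h5
  rw [h3, h4, dv, neg_add_eq_sub, ← mul_sub, ← sum_sub_distrib]
  refine congrArg _ (sum_congr rfl fun i _ => ?_)
  rw [← Finsupp.sub_apply, ← map_sub]
  change β.repr (lieBracket ℝ (e i) (e j) x) i = _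
  rw [(h.br i j).self_of_nhds]
  simp only [← hβ, Basis.repr_sum_self]

/-- The structure functions of a frame. -/
def cf (b : Basis ι ℝ E) (e : ι → E → E) (i j k : ι) (y : E) : ℝ :=
  b.det (Function.update (fun l => e l y) k (lieBracket ℝ (e i) (e j) y)) / b.det fun l => e l y

lemma cramer {v : ι → E} (h : LinearIndependent ℝ v) (w : E) :
    w = ∑ k, (b.det (Function.update v k w) / b.det v) • v k := by
  have hsp := (h.span_eq_top_of_card_eq_finrank' (finrank_eq_card_basis b).symm).ge
  have h0 : b.det v ≠ 0 := det_ne b (e := fun i _ => v i) (x := 0) h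
  conv_lhs => rw [← (Basis.mk h hsp).sum_repr w]
  refine sum_congr rfl fun k _ => ?_
  rw [Basis.mk_apply, show b.det (Function.update v k w) = b.det v * (Basis.mk h hsp).repr w k from
    (congrArg (· w) (b.det_smul_mk_coord_eq_det_update h hsp k)).symm, mul_div_cancel_left₀ _ h0]

lemma contDiffAt_cf {m n : WithTop ℕ∞} (h : ∀ i, ContDiffAt ℝ n (e i) x) (hmn : m + 1 ≤ n)
    (h' : LinearIndependent ℝ fun i => e i x) (i j k : ι) : ContDiffAt ℝ m (cf b e i j k) x := by
  have h1 : ∀ i, ContDiffAt ℝ m (e i) x := fun i => (h i).of_le (le_self_add.trans hmn)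
  refine ContDiffAt.div ?_ (contDiffAt_det b h1) (det_ne b h')
  have := contDiffAt_det b (e := Function.update e k (lieBracket ℝ (e i) (e j))) (x := x) (n := m)
    fun l => by
      rcases eq_or_ne l k with rfl | hl
      · rw [Function.update_self]; exact (h i).lieBracket_vectorField (h j) hmn
      · rw [Function.update_of_ne hl]; exact h1 l
  simpa only [Function.update_apply, ite_apply, Function.update_apply,
    funext (Function.update_apply _ k _)] using this

include b in
lemma li_ev (h : ∀ i, ContinuousAt (e i) x) (h' : LinearIndependent ℝ fun i => e i x) :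
    ∀ᶠ y in 𝓝 x, LinearIndependent ℝ fun i => e i y := by
  have h1 : ContinuousAt (fun y => b.det fun i => e i y) x :=
    (detC b).cont.continuousAt.comp (continuousAt_pi.2 h)
  exact (h1.eventually_ne (det_ne b h')).mono fun y hy => ((b.is_basis_iff_det).2 hy.isUnit).1

lemma frameAt_cf (h : ∀ i, ContDiffAt ℝ 2 (e i) x) (h' : LinearIndependent ℝ fun i => e i x) :
    FrameAt e (cf b e) x where
  sm := h
  smc i j k := (contDiffAt_cf b (m := 1) h le_rfl h' i j k).differentiableAt one_ne_zero
  br _ _ := (li_ev b (fun i => (h i).continuousAt) h').mono fun _ hy => cramer b hy _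
  li := li_ev b (fun i => (h i).continuousAt) h'

lemma FrameAt.eq_cf (h : FrameAt e c x) : ∀ᶠ y in 𝓝 x, ∀ i j k, c i j k y = cf b e i j k y := by
  filter_upwards [h.li, eventually_all.2 fun i => eventually_all.2 fun j => h.br i j]
    with y h1 h2 i j k
  exact sub_eq_zero.1 (Fintype.linearIndependent_iff.1 h1 (fun k => c i j k y - cf b e i j k y) (by
    simp only [sub_smul, sum_sub_distrib, ← h2]
    exact sub_eq_zero.2 (cramer b h1 _)) k)

include b in
lemma FrameAt.contDiffAt_c (h : FrameAt e c x) {m n : WithTop ℕ∞} (he : ∀ i, ContDiffAt ℝ n (e i) x)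
    (hmn : m + 1 ≤ n) (i j k : ι) : ContDiffAt ℝ m (c i j k) x :=
  (contDiffAt_cf b he hmn h.li.self_of_nhds i j k).congr_of_eventuallyEq
    ((h.eq_cf b).mono fun _ hy => hy i j k)

include b in
lemma FrameAt.c1 (h : FrameAt e c x) (i j k : ι) : ContDiffAt ℝ 1 (c i j k) x :=
  h.contDiffAt_c b h.sm le_rfl i j k

include b in
lemma FrameAt.eventually (h : FrameAt e c x) : ∀ᶠ y in 𝓝 x, FrameAt e c y := by
  filter_upwards [eventually_all.2 fun i => (h.sm i).eventually (by simp),
    eventually_all.2 fun i => eventually_all.2 fun j => eventually_all.2 fun k =>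
      (h.c1 b i j k).eventually (by simp),
    eventually_all.2 fun i => eventually_all.2 fun j => (h.br i j).eventuallyEq_nhds,
    h.li.eventually_nhds] with y h1 h2 h3 h4
  exact ⟨h1, fun i j k => (h2 i j k).differentiableAt one_ne_zero, h3, h4⟩

section smooth
variable {m n : WithTop ℕ∞} {D : Dat E S ι} {u v : E → S}

lemma contDiffAt_chr (h : ∀ i j k, ContDiffAt ℝ n (c i j k) x) (i j k : ι) :
    ContDiffAt ℝ n (chr c i j k) x := (((h i j k).sub (h j k i)).add (h k i j)).div_const 2

lemma contDiffAt_scal (he : ∀ i, ContDiffAt ℝ m (e i) x) (h : ∀ i j k, ContDiffAt ℝ n (c i j k) x)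
    (hmn : m + 1 ≤ n) : ContDiffAt ℝ m (scal e c) x := by
  have h1 : ∀ i j k, ContDiffAt ℝ m (c i j k) x := fun i j k =>
    (h i j k).of_le (le_self_add.trans hmn)
  have h2 := contDiffAt_chr h1
  exact ContDiffAt.sum fun i _ => ContDiffAt.sum fun j _ =>
    ((contDiffAt_X (he i) (contDiffAt_chr h _ _ _) hmn).sub
      (contDiffAt_X (he j) (contDiffAt_chr h _ _ _) hmn)).add (ContDiffAt.sum fun k _ =>
        (((h2 _ _ _).mul (h2 _ _ _)).sub ((h2 _ _ _).mul (h2 _ _ _))).sub
          ((h1 _ _ _).mul (h2 _ _ _)))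

lemma Dat.contDiffAt_con (h : ∀ i j k, ContDiffAt ℝ n (D.c i j k) x) (i : ι) :
    ContDiffAt ℝ n (D.con i) x :=
  (ContDiffAt.sum fun k _ => ContDiffAt.sum fun l _ =>
    (contDiffAt_chr h i k l).smul contDiffAt_const).const_smul _

lemma Dat.contDiffAt_nab (he : ∀ i, ContDiffAt ℝ m (D.e i) x)
    (h : ∀ i j k, ContDiffAt ℝ m (D.c i j k) x) (hu : ContDiffAt ℝ n u x) (hmn : m + 1 ≤ n) (i : ι) :
    ContDiffAt ℝ m (D.nab i u) x :=
  (contDiffAt_X (he i) hu hmn).add
    ((Dat.contDiffAt_con h i).clm_apply (hu.of_le (le_self_add.trans hmn)))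

lemma Dat.contDiffAt_dir (he : ∀ i, ContDiffAt ℝ m (D.e i) x)
    (h : ∀ i j k, ContDiffAt ℝ m (D.c i j k) x) (hu : ContDiffAt ℝ n u x) (hmn : m + 1 ≤ n) :
    ContDiffAt ℝ m (D.dir u) x :=
  ContDiffAt.sum fun i _ => (D.γ i).contDiff.contDiffAt.comp x (Dat.contDiffAt_nab he h hu hmn i)

lemma Dat.nab_zero (h : x ∉ tsupport v) (i : ι) : D.nab i v x = 0 := by
  rw [Dat.nab_congr i (notMem_tsupport_iff_eventuallyEq.1 h)]
  simp [Dat.nab, X]

lemma Dat.dir_zero (h : x ∉ tsupport v) : D.dir v x = 0 := by simp [Dat.dir, Dat.nab_zero h]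

end smooth

variable [MeasurableSpace E] [BorelSpace E] (μ : Measure E) [μ.IsAddHaarMeasure] {Ω : Set E}

lemma integral_fderiv_zero {g : E → ℝ} (hg : ContDiff ℝ 1 g) (hc : HasCompactSupport g) (v : E) :
    Integrable (fun x => fderiv ℝ g x v) μ ∧ ∫ x, fderiv ℝ g x v ∂μ = 0 := by
  have h1 : Integrable (fun x => fderiv ℝ g x v) μ :=
    ((hg.continuous_fderiv one_ne_zero).clm_apply continuous_const).integrable_of_hasCompactSupport
      (hc.fderiv_apply ℝ v)
  have h2 := integral_mul_fderiv_eq_neg_fderiv_mul_of_integrable (μ := μ) (f := fun _ => (1 : ℝ))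
    (g := g) (v := v) (by simp) (by simpa using h1)
    (by simpa using hg.continuous.integrable_of_hasCompactSupport hc) (by simp)
    fun x _ => hg.differentiable one_ne_zero x
  exact ⟨h1, by simpa using h2⟩

/-- Integration by parts: the divergence of a compactly supported field has integral zero. -/
theorem ibp {f : E → ℝ} (h : ∀ x ∈ tsupport f, FrameAt e c x)
    (hf : ∀ x ∈ tsupport f, ContDiffAt ℝ 1 f x) (hc : HasCompactSupport f) (j : ι) :
    Integrable (fun x => (X (e j) f x + dv c j x * f x) * rho b e x) μ ∧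
      ∫ x, (X (e j) f x + dv c j x * f x) * rho b e x ∂μ = 0 := by
  let L : ι → E →L[ℝ] ℝ := fun i => LinearMap.toContinuousLinearMap (b.coord i)
  let W : ι → E → ℝ := fun i x => f x * (rho b e x * L i (e j x))
  have h0 : ∀ x ∈ tsupport f, ContDiffAt ℝ 1 (rho b e) x := fun x hx =>
    contDiffAt_rho (n := 1) b (fun i => ((h x hx).sm i).of_le one_le_two) (h x hx).li.self_of_nhds
  have h1 : ∀ i, ContDiff ℝ 1 (W i) := fun i => contDiff_of_tsupp fun x hx =>
    have hx' := tsupport_mul_subset_left hx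
    (hf x hx').mul ((h0 x hx').mul ((L i).contDiff.contDiffAt.comp x
      (((h x hx').sm j).of_le one_le_two)))
  have h2 := fun i => integral_fderiv_zero μ (h1 i) hc.mul_right (b i)
  have h3 : (fun x => (X (e j) f x + dv c j x * f x) * rho b e x) =
      fun x => ∑ i, fderiv ℝ (W i) x (b i) := by
    ext x
    by_cases hx : x ∈ tsupport f
    · have d1 := (hf x hx).differentiableAt one_ne_zero
      have d2 := (h0 x hx).differentiableAt one_ne_zero
      have d3 := (h x hx).de j
      have d4 : ∀ i, DifferentiableAt ℝ (fun y => L i (e j y)) x := fun i =>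
        (L i).differentiableAt.comp x d3
      have h4 : ∀ g : E → ℝ, ∑ i, X (fun _ => b i) g x * L i (e j x) = X (e j) g x := fun g => by
        simp only [X]
        conv_rhs => rw [← b.sum_repr (e j x), map_sum]
        exact sum_congr rfl fun i _ => by simp [L, mul_comm]
      have h5 : ∀ i, fderiv ℝ (W i) x (b i) = f x * (rho b e x * b.repr (fderiv ℝ (e j) x (b i)) i +
          X (fun _ => b i) (rho b e) x * L i (e j x)) +
            rho b e x * (X (fun _ => b i) f x * L i (e j x)) := fun i => by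
        change X (fun _ => b i) (W i) x = _
        rw [X_mul d1 (d2.fun_mul (d4 i)), X_mul d2 (d4 i), X_map _ d3]
        change f x * (rho b e x * b.repr (fderiv ℝ (e j) x (b i)) i + _) + _ = _
        ring
      simp only [h5, sum_add_distrib, ← mul_sum, h4]
      rw [add_comm (rho b e x * _), rho_div b (h x hx)]
      ring
    · have h4 := notMem_tsupport_iff_eventuallyEq.1 hx
      have h5 : ∀ i, fderiv ℝ (W i) x = 0 := fun i => by
        rw [(notMem_tsupport_iff_eventuallyEq.1 fun h => hx (tsupport_mul_subset_left h)).fderiv_eq]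
        simp
      rw [X, h4.fderiv_eq, h4.self_of_nhds]
      simp [h5]
  rw [h3]
  refine ⟨integrable_finsetSum _ fun i _ => (h2 i).1, ?_⟩
  rw [integral_finsetSum _ fun i _ => (h2 i).1]
  exact sum_eq_zero fun i _ => (h2 i).2

theorem ibp_sum {f : ι → E → ℝ} (h : ∀ j, ∀ x ∈ tsupport (f j), FrameAt e c x)
    (hf : ∀ j, ∀ x ∈ tsupport (f j), ContDiffAt ℝ 1 (f j) x) (hc : ∀ j, HasCompactSupport (f j)) :
    Integrable (fun x => (∑ j, (X (e j) (f j) x + dv c j x * f j x)) * rho b e x) μ ∧
      ∫ x, (∑ j, (X (e j) (f j) x + dv c j x * f j x)) * rho b e x ∂μ = 0 := by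
  have h1 := fun j => ibp b μ (h j) (hf j) (hc j) j
  simp only [sum_mul]
  refine ⟨integrable_finsetSum _ fun i _ => (h1 i).1, ?_⟩
  rw [integral_finsetSum _ fun i _ => (h1 i).1]
  exact sum_eq_zero fun i _ => (h1 i).2

lemma integrable_of_supp {K : Set E} (hK : IsCompact K) {g : E → ℝ} (h0 : ∀ x ∉ K, g x = 0)
    (h : ∀ x ∈ K, ContinuousAt g x) : Integrable g μ :=
  (integrableOn_iff_integrable_of_support_subset fun x hx => of_not_not fun h => hx (h0 x h)).1
    (ContinuousOn.integrableOn_compact hK fun x hx => (h x hx).continuousWithinAt)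

lemma tsupport_inner {w v : E → S} : tsupport (fun y => ⟪w y, v y⟫) ⊆ tsupport v :=
  closure_mono fun y hy h => hy (by simp [h])

lemma ibp_inner {w : ι → E → S} {v : E → S} (h : ∀ x ∈ tsupport v, FrameAt e c x)
    (hw : ∀ j, ∀ x ∈ tsupport v, ContDiffAt ℝ 1 (w j) x)
    (hv : ∀ x ∈ tsupport v, ContDiffAt ℝ 1 v x) (hc : HasCompactSupport v) :
    Integrable (fun x => (∑ j, (X (e j) (fun y => ⟪w j y, v y⟫) x + dv c j x * ⟪w j x, v x⟫)) *
      rho b e x) μ ∧ ∫ x, (∑ j, (X (e j) (fun y => ⟪w j y, v y⟫) x + dv c j x * ⟪w j x, v x⟫)) *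
        rho b e x ∂μ = 0 :=
  ibp_sum b μ (f := fun j y => ⟪w j y, v y⟫) (fun _ x hx => h x (tsupport_inner hx))
    (fun j x hx => (hw j x (tsupport_inner hx)).inner ℝ (hv x (tsupport_inner hx)))
    fun _ => hc.of_isClosed_subset (isClosed_tsupport _) tsupport_inner

lemma div_zero {w : ι → E → S} {v : E → S} (hx : x ∉ tsupport v) :
    ∑ j, (X (e j) (fun y => ⟪w j y, v y⟫) x + dv c j x * ⟪w j x, v x⟫) = 0 :=
  sum_eq_zero fun j _ => by
    rw [X_congr (notMem_tsupport_iff_eventuallyEq.1 fun h => hx (tsupport_inner h)),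
      image_eq_zero_of_notMem_tsupport hx]
    simp [X]

namespace Dat

variable {D : Dat E S ι} {u v : E → S}

lemma integrable_inner {p q : E → S} {K : Set E} (hK : IsCompact K) (h : ∀ x ∈ K, FrameAt D.e D.c x)
    {a : E → ℝ} (ha : ∀ x ∈ K, ContinuousAt a x) (hp : ∀ x ∈ K, ContinuousAt p x)
    (hq : ∀ x ∈ K, ContinuousAt q x) (h0 : ∀ x ∉ K, q x = 0) :
    Integrable (fun x => a x * ⟪p x, q x⟫ * rho b D.e x) μ :=
  integrable_of_supp μ hK (fun x hx => by simp [h0 x hx]) fun x hx =>
    ((ha x hx).mul ((hp x hx).inner (hq x hx))).mul (contDiffAt_rho (n := 1) b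
      (fun i => ((h x hx).sm i).of_le one_le_two) (h x hx).li.self_of_nhds).continuousAt

include b in
lemma cont_nab (h : FrameAt D.e D.c x) (hu : ContDiffAt ℝ 1 u x) (i : ι) :
    ContinuousAt (D.nab i u) x :=
  (contDiffAt_nab (m := 0) (fun i => (h.sm i).of_le zero_le_two)
    (fun i j k => (h.c1 b i j k).of_le zero_le_one) hu (by simp) i).continuousAt

include b in
lemma cont_dir (h : FrameAt D.e D.c x) (hu : ContDiffAt ℝ 1 u x) : ContinuousAt (D.dir u) x :=
  (contDiffAt_dir (m := 0) (fun i => (h.sm i).of_le zero_le_two)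
    (fun i j k => (h.c1 b i j k).of_le zero_le_one) hu (by simp)).continuousAt

include b in
lemma cont_scal (h : FrameAt e c x) : ContinuousAt (scal e c) x :=
  (contDiffAt_scal (m := 0) (fun i => (h.sm i).of_le zero_le_two) (h.c1 b) (by simp)).continuousAt

/-- The Dirac operator is formally symmetric (`σ = 1`) or skew (`σ = -1`). -/
theorem integral_dir (hD : D.Cl) (h : ∀ x ∈ tsupport v, FrameAt D.e D.c x)
    (hu : ∀ x ∈ tsupport v, ContDiffAt ℝ 1 u x) (hv : ∀ x ∈ tsupport v, ContDiffAt ℝ 1 v x)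
    (hc : HasCompactSupport v) :
    ∫ x, ⟪D.dir u x, v x⟫ * rho b D.e x ∂μ = D.σ * ∫ x, ⟪u x, D.dir v x⟫ * rho b D.e x ∂μ := by
  have i1 := integrable_inner b μ hc h (a := fun _ => 1) (fun _ _ => continuousAt_const)
    (fun x hx => cont_dir b (h x hx) (hu x hx)) (fun x hx => (hv x hx).continuousAt)
    fun x hx => image_eq_zero_of_notMem_tsupport hx
  have i2 := integrable_inner b μ hc h (a := fun _ => D.σ) (fun _ _ => continuousAt_const)
    (fun x hx => (hu x hx).continuousAt) (fun x hx => cont_dir b (h x hx) (hv x hx))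
    fun x hx => dir_zero hx
  simp only [one_mul, mul_assoc] at i1 i2
  rw [← sub_eq_zero, ← integral_const_mul, ← integral_sub i1 i2, ← (ibp_inner b μ
    (w := fun j y => D.γ j (u y)) h (fun j x hx => (D.γ j).contDiff.contDiffAt.comp x (hu x hx))
    hv hc).2]
  refine integral_congr_ae (.of_forall fun x => ?_)
  by_cases hx : x ∈ tsupport v
  · simp only [← green_dir hD (h x hx).skew ((hu x hx).differentiableAt one_ne_zero)
      ((hv x hx).differentiableAt one_ne_zero)]
    ring
  · beta_reduce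
    rw [div_zero (w := fun j y => D.γ j (u y)) hx, dir_zero hx, image_eq_zero_of_notMem_tsupport hx]
    simp

/-- The integrated Lichnerowicz formula. -/
theorem integral_lich (hD : D.Cl) (h : ∀ x ∈ tsupport v, FrameAt D.e D.c x)
    (hu : ∀ x ∈ tsupport v, ContDiffAt ℝ 2 u x) (hv : ∀ x ∈ tsupport v, ContDiffAt ℝ 1 v x)
    (hc : HasCompactSupport v) :
    ∫ x, ⟪D.dir u x, D.dir v x⟫ * rho b D.e x ∂μ =
      ∑ i, ∫ x, ⟪D.nab i u x, D.nab i v x⟫ * rho b D.e x ∂μ +
        ∫ x, scal D.e D.c x / 4 * ⟪u x, v x⟫ * rho b D.e x ∂μ := by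
  have hu1 := fun x hx => (hu x hx).of_le one_le_two
  have i1 := integrable_inner b μ hc h (a := fun _ => 1) (fun _ _ => continuousAt_const)
    (fun x hx => cont_dir b (h x hx) (hu1 x hx)) (fun x hx => cont_dir b (h x hx) (hv x hx))
    fun x hx => dir_zero hx
  have i2 := fun i => integrable_inner b μ hc h (a := fun _ => 1) (fun _ _ => continuousAt_const)
    (fun x hx => cont_nab b (h x hx) (hu1 x hx) i) (fun x hx => cont_nab b (h x hx) (hv x hx) i)
    fun x hx => nab_zero hx i
  have i3 := integrable_inner b μ hc h (a := fun x => scal D.e D.c x / 4)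
    (fun x hx => (cont_scal b (h x hx)).div_const 4) (fun x hx => (hu x hx).continuousAt)
    (fun x hx => (hv x hx).continuousAt) fun x hx => image_eq_zero_of_notMem_tsupport hx
  have j1 := ibp_inner b μ (w := fun j => D.nab j u) h (fun j x hx => contDiffAt_nab
    (fun i => ((h x hx).sm i).of_le one_le_two) ((h x hx).c1 b) (hu x hx) le_rfl j) hv hc
  have j2 := ibp_inner b μ (w := fun j y => D.γ j (D.dir u y)) h (fun j x hx =>
    (D.γ j).contDiff.contDiffAt.comp x (contDiffAt_dir
      (fun i => ((h x hx).sm i).of_le one_le_two) ((h x hx).c1 b) (hu x hx) le_rfl)) hv hc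
  simp only [one_mul] at i1 i2
  have i4 := integrable_finsetSum univ fun i _ => i2 i
  have j3 := integral_add j1.1 (j2.1.const_mul D.σ)
  rw [integral_const_mul, j1.2, j2.2, mul_zero, add_zero] at j3
  rw [eq_comm, ← sub_eq_zero, ← integral_finsetSum _ fun i _ => i2 i, ← integral_add i4 i3,
    ← integral_sub (i4.fun_add i3) i1, ← j3]
  refine integral_congr_ae (.of_forall fun x => ?_)
  by_cases hx : x ∈ tsupport v
  · have := green_lich hD (h x hx) (hu x hx) ((hv x hx).differentiableAt one_ne_zero)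
    simp only [← sum_mul]
    linear_combination rho b D.e x * this
  · beta_reduce
    rw [div_zero (w := fun j y => D.γ j (D.dir u y)) hx, div_zero (w := fun j => D.nab j u) hx]
    simp [dir_zero hx, nab_zero hx, image_eq_zero_of_notMem_tsupport hx]

end Dat

end Pool.Agent.Lib.LICH
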