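import Mathlib

/-! Clifford algebra identities behind the Lichnerowicz formula. -/

open Finset

set_option linter.unusedSectionVars false

noncomputable section

namespace Pool.Agent.Lib.LICH

variable {ι A : Type*} [Fintype ι] [DecidableEq ι] [Ring A] [Algebra ℝ A]

/-- Clifford relations, `γ i ^ 2 = -σ`, `σ = 1` or `σ = -1`. -/
structure Rel (σ : ℝ) (γ : ι → A) : Prop where
  sq : σ * σ = 1
  anti : ∀ i j, γ i * γ j + γ j * γ i = (if i = j then -2 * σ else 0) • (1 : A)

/-- The spin representation of a skew matrix. -/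
def lam (σ : ℝ) (γ : ι → A) (M : ι → ι → ℝ) : A := (σ / 4) • ∑ k, ∑ l, M k l • (γ k * γ l)

variable {σ : ℝ} {γ : ι → A} {M N : ι → ι → ℝ}

lemma lam_add : lam σ γ (fun k l => M k l + N k l) = lam σ γ M + lam σ γ N := by
  simp only [lam, add_smul, sum_add_distrib, smul_add]

lemma lam_sub : lam σ γ (fun k l => M k l - N k l) = lam σ γ M - lam σ γ N := by
  simp only [lam, sub_smul, sum_sub_distrib, smul_sub]

lemma lam_smul (a : ℝ) : lam σ γ (fun k l => a * M k l) = a • lam σ γ M := by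
  simp only [lam, mul_smul, ← smul_sum]
  exact smul_comm _ _ _

lemma lam_sum {κ : Type*} (s : Finset κ) (M : κ → ι → ι → ℝ) :
    lam σ γ (fun k l => ∑ m ∈ s, M m k l) = ∑ m ∈ s, lam σ γ (M m) := by
  simp only [lam, sum_smul, ← smul_sum]
  congr 1
  rw [sum_comm (s := s)]
  exact sum_congr rfl fun k _ => sum_comm

lemma Rel.swap (h : Rel σ γ) (i j : ι) :
    γ j * γ i = (if i = j then -2 * σ else 0) • (1 : A) - γ i * γ j :=
  eq_sub_of_add_eq' (h.anti i j)

lemma Rel.comm2 (h : Rel σ γ) (j k a : ι) : γ j * γ k * γ a - γ a * (γ j * γ k) =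
    (if k = a then -2 * σ else 0) • γ j - (if j = a then -2 * σ else 0) • γ k := by
  have : γ j * γ k * γ a - γ a * (γ j * γ k) =
      γ j * (γ k * γ a + γ a * γ k) - (γ j * γ a + γ a * γ j) * γ k := by noncomm_ring
  rw [this, h.anti, h.anti]
  simp

lemma Rel.lam_gam (h : Rel σ γ) (hM : ∀ k l, M k l = -M l k) (a : ι) :
    lam σ γ M * γ a - γ a * lam σ γ M = ∑ k, M a k • γ k := by
  have h1 : lam σ γ M * γ a - γ a * lam σ γ M =
      (σ / 4) • ∑ k, ∑ l, M k l • (γ k * γ l * γ a - γ a * (γ k * γ l)) := by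
    simp only [lam, smul_mul_assoc, mul_smul_comm, sum_mul, mul_sum, smul_sub, sum_sub_distrib]
  have h2 : ∑ k, ∑ l, M k l • (if l = a then -2 * σ else 0) • γ k =
      (2 * σ) • ∑ k, M a k • γ k := by
    rw [smul_sum]
    refine sum_congr rfl fun k _ => ?_
    rw [sum_eq_single a (fun l _ hl => by simp [hl]) (by simp), if_pos rfl, hM k a, smul_smul,
      smul_smul]
    congr 1; ring
  have h3 : ∑ k, ∑ l, M k l • (if k = a then -2 * σ else 0) • γ l =
      (-2 * σ) • ∑ k, M a k • γ k := by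
    rw [sum_eq_single a (fun l _ hl => by simp [hl]) (by simp), if_pos rfl, smul_sum]
    exact sum_congr rfl fun k _ => smul_comm _ _ _
  simp only [h1, h.comm2, smul_sub, sum_sub_distrib, h2, h3]
  rw [smul_smul, smul_smul, ← sub_smul, show σ / 4 * (2 * σ) - σ / 4 * (-2 * σ) = σ * σ by ring, h.sq, one_smul]

lemma Rel.lam_lam (h : Rel σ γ) (hM : ∀ k l, M k l = -M l k) :
    lam σ γ M * lam σ γ N - lam σ γ N * lam σ γ M =
      lam σ γ fun k l => ∑ m, (N k m * M m l - M k m * N m l) := by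
  have h1 : ∀ k l, lam σ γ M * (γ k * γ l) - γ k * γ l * lam σ γ M =
      ∑ m, M k m • (γ m * γ l) + ∑ m, M l m • (γ k * γ m) := fun k l => by
    have : lam σ γ M * (γ k * γ l) - γ k * γ l * lam σ γ M =
        (lam σ γ M * γ k - γ k * lam σ γ M) * γ l + γ k * (lam σ γ M * γ l - γ l * lam σ γ M) := by
      noncomm_ring
    rw [this, h.lam_gam hM, h.lam_gam hM]
    simp only [sum_mul, mul_sum, smul_mul_assoc, mul_smul_comm]
  have h2 : lam σ γ M * lam σ γ N - lam σ γ N * lam σ γ M =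
      (σ / 4) • ∑ k, ∑ l, N k l • (lam σ γ M * (γ k * γ l) - γ k * γ l * lam σ γ M) := by
    generalize lam σ γ M = L
    simp only [lam, smul_mul_assoc, mul_smul_comm, sum_mul, mul_sum, smul_sub, sum_sub_distrib]
  rw [h2]
  simp only [h1]
  rw [lam]
  congr 1
  simp only [smul_add, sum_add_distrib, smul_sum, smul_smul, sum_sub_distrib, sub_smul, sum_smul]
  rw [add_comm, sub_eq_add_neg]
  congr 1
  · refine sum_congr rfl fun k _ => ?_
    exact sum_comm
  · rw [sum_comm, ← sum_neg_distrib]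
    conv_lhs => enter [2, l]; rw [sum_comm]
    rw [sum_comm]
    refine sum_congr rfl fun k _ => ?_
    rw [← sum_neg_distrib]
    refine sum_congr rfl fun l _ => ?_
    rw [← sum_neg_distrib]
    refine sum_congr rfl fun m _ => ?_
    rw [hM m k, ← neg_smul]
    congr 1; ring

lemma Rel.sym (h : Rel σ γ) (hM : ∀ k l, M k l = M l k) :
    ∑ k, ∑ l, M k l • (γ k * γ l) = (-σ * ∑ k, M k k) • (1 : A) := by
  have h1 : ∑ k, ∑ l, M k l • (γ k * γ l) = ∑ k, ∑ l, M k l • (γ l * γ k) := by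
    rw [sum_comm]
    exact sum_congr rfl fun k _ => sum_congr rfl fun l _ => by rw [hM]
  have h2 : (2 : ℝ) • ∑ k, ∑ l, M k l • (γ k * γ l) = (2 : ℝ) • (-σ * ∑ k, M k k) • (1 : A) := by
    rw [two_smul]
    nth_rewrite 2 [h1]
    simp only [← sum_add_distrib, ← smul_add, h.anti, smul_smul, mul_ite, mul_zero, ← sum_smul,
      sum_ite_eq, mem_univ, if_true]
    congr 1
    rw [← sum_mul]; ring
  exact smul_right_injective A two_ne_zero h2

/-- Algebraic curvature tensors. -/
structure Curv (R : ι → ι → ι → ι → ℝ) : Prop where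
  a12 : ∀ i j k l, R i j k l = -R j i k l
  a34 : ∀ i j k l, R i j k l = -R i j l k
  bia : ∀ i j k l, R i j k l + R j k i l + R k i j l = 0

variable {R : ι → ι → ι → ι → ℝ}

lemma Curv.ric (h : Curv R) (k l : ι) : ∑ i, R i k l i = ∑ i, R i l k i :=
  sum_congr rfl fun i _ => by linarith [h.bia i k l i, h.a34 k l i i, h.a12 l i k i]

lemma Rel.three (h : Rel σ γ) (hR : Curv R) (l : ι) :
    ∑ i, ∑ j, ∑ k, R i j k l • (γ i * γ j * γ k) = (-2 * σ) • ∑ k, (∑ i, R i k l i) • γ k := by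
  let d : ι → ι → ℝ := fun i j => if i = j then -2 * σ else 0
  have e1 : ∀ i j k, γ j * γ k * γ i = γ i * γ j * γ k + (d k i • γ j - d j i • γ k) :=
    fun i j k => by rw [← h.comm2, mul_assoc (γ i)]; abel
  have e2 : ∀ i j k, γ k * γ i * γ j = γ i * γ j * γ k - (d j k • γ i - d i k • γ j) :=
    fun i j k => by rw [← h.comm2, mul_assoc (γ k)]; abel
  have s1 : ∑ i, ∑ j, ∑ k, R i j k l • (γ i * γ j * γ k) =
      ∑ i, ∑ j, ∑ k, R j k i l • (γ j * γ k * γ i) := by
    symm; rw [sum_comm]; exact sum_congr rfl fun j _ => sum_comm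
  have s2 : ∑ i, ∑ j, ∑ k, R i j k l • (γ i * γ j * γ k) =
      ∑ i, ∑ j, ∑ k, R k i j l • (γ k * γ i * γ j) := by
    rw [sum_comm]; exact sum_congr rfl fun j _ => sum_comm
  have t0 : ∀ (f : ι → ℝ) (a : ι) (x : ι → A), ∑ k, f k • d k a • x k = (-2 * σ * f a) • x a :=
    fun f a x => by
      rw [sum_eq_single a (fun l _ hl => by simp [d, hl]) (by simp), smul_smul]
      simp only [d, if_true, mul_comm]
  have t0' : ∀ (f : ι → ℝ) (a : ι) (x : ι → A), ∑ k, f k • d a k • x k = (-2 * σ * f a) • x a :=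
    fun f a x => by rw [← t0]; simp only [d, eq_comm]
  have t1 : ∑ i, ∑ j, ∑ k, R j k i l • d k i • γ j = (-2 * σ) • ∑ k, (∑ i, R i k l i) • γ k := by
    rw [sum_comm, smul_sum]
    refine sum_congr rfl fun j _ => ?_
    simp only [t0 _ _ fun _ => γ j]
    rw [← sum_smul, smul_smul, mul_sum]
    refine congrArg (· • γ j) (sum_congr rfl fun i _ => ?_)
    rw [hR.a12 j i, hR.a34 i j i, neg_neg]
  have t2 : ∑ i, ∑ j, ∑ k, R j k i l • d j i • γ k = -(-2 * σ) • ∑ k, (∑ i, R i k l i) • γ k := by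
    conv_lhs => enter [2, i]; rw [sum_comm]
    rw [sum_comm, smul_sum]
    refine sum_congr rfl fun k _ => ?_
    simp only [t0 _ _ fun _ => γ k]
    rw [← sum_smul, smul_smul, mul_sum]
    refine congrArg (· • γ k) (sum_congr rfl fun i _ => ?_)
    rw [hR.a34 i k i]; ring
  have t3 : ∑ i, ∑ j, ∑ k, R k i j l • d j k • γ i = -(-2 * σ) • ∑ k, (∑ i, R i k l i) • γ k := by
    rw [smul_sum]
    refine sum_congr rfl fun i _ => ?_
    simp only [t0' _ _ fun _ => γ i]
    rw [← sum_smul, smul_smul, mul_sum]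
    refine congrArg (· • γ i) (sum_congr rfl fun j _ => ?_)
    rw [hR.a34 j i j]; ring
  have t4 : ∑ i, ∑ j, ∑ k, R k i j l • d i k • γ j = 0 := by
    refine sum_eq_zero fun i _ => sum_eq_zero fun j _ => ?_
    rw [t0' _ _ fun _ => γ j, show R i i j l = 0 by linarith [hR.a12 i i j l]]
    simp
  have t5 : ∑ i, ∑ j, ∑ k, R i j k l • (γ i * γ j * γ k) + ∑ i, ∑ j, ∑ k, R j k i l •
      (γ i * γ j * γ k) + ∑ i, ∑ j, ∑ k, R k i j l • (γ i * γ j * γ k) = 0 := by
    simp only [← sum_add_distrib, ← add_smul, hR.bia, zero_smul, sum_const_zero]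
  replace s1 := s1.trans (sum_congr rfl fun i _ => sum_congr rfl fun j _ =>
    sum_congr rfl fun k _ => congrArg _ (e1 i j k))
  replace s2 := s2.trans (sum_congr rfl fun i _ => sum_congr rfl fun j _ =>
    sum_congr rfl fun k _ => congrArg _ (e2 i j k))
  simp only [smul_add, smul_sub, sum_add_distrib, sum_sub_distrib, t1, t2] at s1
  simp only [smul_sub, sum_sub_distrib, t3, t4] at s2
  refine smul_right_injective A (three_ne_zero (α := ℝ)) ?_
  linear_combination (norm := module) s1 + s2 + t5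

/-- The contraction of the spin curvature. -/
lemma Rel.contract (h : Rel σ γ) (hR : Curv R) :
    ∑ i, ∑ j, γ i * γ j * lam σ γ (R i j) = (σ / 2 * ∑ i, ∑ j, R i j j i) • (1 : A) := by
  have h1 : ∑ i, ∑ j, γ i * γ j * lam σ γ (R i j) =
      (σ / 4) • ∑ l, (∑ i, ∑ j, ∑ k, R i j k l • (γ i * γ j * γ k)) * γ l := by
    simp only [lam, mul_smul_comm, ← smul_sum, mul_sum, sum_mul, smul_mul_assoc, mul_assoc]
    congr 1
    symm
    rw [sum_comm]
    refine sum_congr rfl fun i _ => ?_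
    rw [sum_comm]
    exact sum_congr rfl fun j _ => sum_comm
  have h2 := h.sym (M := fun k l => ∑ i, R i k l i) hR.ric
  rw [sum_comm] at h2
  simp only [h1, h.three hR, smul_mul_assoc, sum_mul, ← smul_sum, h2, smul_smul]
  rw [sum_comm]
  congr 1
  linear_combination (σ / 2 * ∑ i, ∑ j, R i j j i) * h.sq

/-- Symmetric and skew part of a double Clifford contraction. -/
lemma Rel.split {S : Type*} [AddCommGroup S] [Module ℝ S] [Module A S] [IsScalarTower ℝ A S]
    [SMulCommClass ℝ A S] (h : Rel σ γ) (H : ι → ι → S) : ∑ i, ∑ j, (γ i * γ j) • H i j =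
      (-σ) • ∑ i, H i i + (1 / 2 : ℝ) • ∑ i, ∑ j, (γ i * γ j) • (H i j - H j i) := by
  have h1 : ∑ i, ∑ j, (γ i * γ j) • H j i = ∑ i, ∑ j, (γ j * γ i) • H i j := sum_comm
  have h2 : ∑ i, ∑ j, (γ i * γ j) • H i j + ∑ i, ∑ j, (γ j * γ i) • H i j =
      (-2 * σ) • ∑ i, H i i := by
    simp only [← sum_add_distrib, ← add_smul, h.anti, smul_assoc, one_smul, ite_smul, zero_smul,
      sum_ite_eq, mem_univ, if_true, smul_sum]
  simp only [smul_sub, sum_sub_distrib, h1]
  linear_combination (norm := module) (1 / 2 : ℝ) • h2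

end Pool.Agent.Lib.LICH
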