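import Pool.Agent.Lib.LICH.Int

/-! Change of the orthonormal frame. -/

open Finset Filter Topology VectorField Module
open scoped RealInnerProductSpace

set_option linter.unusedSectionVars false

noncomputable section

namespace Pool.Agent.Lib.LICH

variable {E F S ι : Type*} [NormedAddCommGroup E] [NormedSpace ℝ E] [NormedAddCommGroup F]
  [NormedSpace ℝ F] [NormedAddCommGroup S] [InnerProductSpace ℝ S] [Fintype ι] [DecidableEq ι]
  {e e' : ι → E → E} {c c' : ι → ι → ι → E → ℝ} {O : ι → ι → E → ℝ} {x : E}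

/-- The frame `e'` is the frame `e` rotated by `O` near `x`. -/
structure Rot (e e' : ι → E → E) (O : ι → ι → E → ℝ) (x : E) : Prop where
  sm : ∀ p i, ContDiffAt ℝ 2 (O p i) x
  eq : ∀ᶠ y in 𝓝 x, ∀ i, e' i y = ∑ p, O p i y • e p y
  on : ∀ᶠ y in 𝓝 x, ∀ i j, ∑ p, O p i y * O p j y = if i = j then 1 else 0

lemma Rot.d (r : Rot e e' O x) (p i : ι) : DifferentiableAt ℝ (O p i) x :=
  (r.sm p i).differentiableAt two_ne_zero

lemma Rot.eventually (r : Rot e e' O x) : ∀ᶠ y in 𝓝 x, Rot e e' O y := by
  filter_upwards [eventually_all.2 fun p => eventually_all.2 fun i => (r.sm p i).eventually (by simp),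
    r.eq.eventually_nhds, r.on.eventually_nhds] with y h1 h2 h3 using ⟨h1, h2, h3⟩

lemma Rot.on' (r : Rot e e' O x) (p q : ι) : ∑ i, O p i x * O q i x = if p = q then 1 else 0 := by
  have h1 : (Matrix.of fun p i => O p i x).transpose * (Matrix.of fun p i => O p i x) = 1 := by
    ext i j; simpa [Matrix.mul_apply, Matrix.one_apply] using r.on.self_of_nhds i j
  have h2 := mul_eq_one_comm.1 h1
  simpa [Matrix.mul_apply, Matrix.one_apply] using congrFun (congrFun h2 p) q

lemma Rot.X_eq (r : Rot e e' O x) (i : ι) (u : E → F) :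
    X (e' i) u x = ∑ p, O p i x • X (e p) u x := by
  simp only [X, r.eq.self_of_nhds i, map_sum, map_smul]

lemma Rot.skew (r : Rot e e' O x) (V : E → E) (j k : ι) :
    ∑ d, X V (O d j) x * O d k x = -∑ d, X V (O d k) x * O d j x := by
  have h1 := X_congr (V := V) (r.on.mono fun y hy => hy j k)
  rw [X_const, X_sum fun d _ => (r.d d j).fun_mul (r.d d k)] at h1
  simp only [X_mul (r.d _ _) (r.d _ _), sum_add_distrib, mul_comm (O _ j x)] at h1
  linarith

lemma Rot.br (r : Rot e e' O x) (h : FrameAt e c x) (h' : FrameAt e' c' x) (i j d : ι) :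
    ∑ m, c' i j m x * O d m x = ∑ p, ∑ q, O p i x * O q j x * c p q d x +
      (X (e' i) (O d j) x - X (e' j) (O d i) x) := by
  have h1 : ∀ i j, X (e' i) (e' j) x = ∑ p, ∑ q, (O p i x * O q j x) • X (e p) (e q) x +
      ∑ q, X (e' i) (O q j) x • e q x := fun i j => by
    rw [X_congr (r.eq.mono fun y hy => hy j), X_sum fun q _ => (r.d q j).fun_smul (h.de q)]
    simp only [X_smul (r.d _ _) (h.de _), sum_add_distrib, r.X_eq i (e _), smul_sum, smul_smul]
    rw [sum_comm]
    simp only [mul_comm]
  have h2 : ∀ p q, X (e p) (e q) x = X (e q) (e p) x + ∑ k, c p q k x • e k x := fun p q =>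
    eq_add_of_sub_eq' (h.br p q).self_of_nhds
  have h3 : X (e' i) (e' j) x - X (e' j) (e' i) x = ∑ m, c' i j m x • e' m x :=
    (h'.br i j).self_of_nhds
  refine sub_eq_zero.1 (Fintype.linearIndependent_iff.1 h.li.self_of_nhds (fun d =>
    ∑ m, c' i j m x * O d m x - (∑ p, ∑ q, O p i x * O q j x * c p q d x +
      (X (e' i) (O d j) x - X (e' j) (O d i) x))) ?_ d)
  have h4 : ∑ d, (∑ m, c' i j m x * O d m x) • e d x = ∑ m, c' i j m x • e' m x := by
    simp only [r.eq.self_of_nhds, sum_smul, smul_sum, smul_smul]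
    exact sum_comm
  have h5 : ∑ p, ∑ q, (O p i x * O q j x) • X (e p) (e q) x =
      ∑ p, ∑ q, (O p j x * O q i x) • X (e p) (e q) x +
        ∑ d, (∑ p, ∑ q, O p i x * O q j x * c p q d x) • e d x := by
    rw [sum_congr rfl fun p _ => sum_congr rfl fun q _ => congrArg _ (h2 p q)]
    simp only [smul_add, sum_add_distrib, smul_sum, smul_smul, sum_smul]
    congr 1
    · rw [sum_comm]; simp only [mul_comm]
    · symm; rw [sum_comm]; exact sum_congr rfl fun p _ => sum_comm
  simp only [sub_smul, add_smul, sum_sub_distrib, sum_add_distrib]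
  rw [h4, ← h3, h1, h1, h5]
  abel

/-- Transformation of the Christoffel symbols. -/
theorem Rot.chr_gauge (r : Rot e e' O x) (h : FrameAt e c x) (h' : FrameAt e' c' x) (i j k : ι) :
    chr c' i j k x = ∑ p, ∑ q, ∑ d, O p i x * O q j x * O d k x * chr c p q d x +
      ∑ d, X (e' i) (O d j) x * O d k x := by
  let T : ι → ι → ι → ℝ := fun i j k => ∑ p, ∑ q, ∑ d, O p i x * O q j x * O d k x * chr c p q d x +
    ∑ d, X (e' i) (O d j) x * O d k x
  have h1 : ∀ i j k, T i j k = -T i k j := fun i j k => by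
    simp only [T, r.skew _ j k, neg_add, ← sum_neg_distrib]
    congr 1
    refine sum_congr rfl fun p _ => sum_comm.trans ?_
    exact sum_congr rfl fun q _ => sum_congr rfl fun d _ => by rw [chr_skew h.skew p d q]; ring
  have h2 : ∀ i j k, c' i j k x = T i j k - T j i k := fun i j k => by
    have h3 : c' i j k x = ∑ d, (∑ m, c' i j m x * O d m x) * O d k x := by
      simp only [sum_mul, mul_assoc]
      rw [sum_comm]
      simp only [← mul_sum, r.on.self_of_nhds, mul_ite, mul_one, mul_zero, sum_ite_eq', mem_univ,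
        if_true]
    have h4 : ∑ d, (∑ p, ∑ q, O p i x * O q j x * c p q d x) * O d k x =
        ∑ p, ∑ q, ∑ d, O p i x * O q j x * O d k x * chr c p q d x -
          ∑ p, ∑ q, ∑ d, O p j x * O q i x * O d k x * chr c p q d x := by
      rw [sum_comm (f := fun p q => ∑ d, O p j x * O q i x * O d k x * chr c p q d x)]
      simp only [← sum_sub_distrib, sum_mul]
      rw [sum_comm]
      refine sum_congr rfl fun p _ => sum_comm.trans ?_
      exact sum_congr rfl fun q _ => sum_congr rfl fun d _ => by rw [← chr_tors h.skew p q d]; ring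
    rw [h3]
    simp only [r.br h h', add_mul, sub_mul, sum_add_distrib, sum_sub_distrib, h4, T]
    ring
  change _ = T i j k
  rw [chr, h2, h2, h2]
  linarith [h1 i j k, h1 j k i, h1 k i j]

section curv
variable {A : Type*} [NormedRing A] [NormedAlgebra ℝ A]

/-- The curvature of a connection form with values in an algebra. -/
def curv (e : ι → E → E) (c : ι → ι → ι → E → ℝ) (ω : ι → E → A) (i j : ι) (x : E) : A :=
  X (e i) (ω j) x - X (e j) (ω i) x + (ω i x * ω j x - ω j x * ω i x) - ∑ m, c i j m x • ω m x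

lemma X_mul' {V : E → E} {f g : E → A} (hf : DifferentiableAt ℝ f x) (hg : DifferentiableAt ℝ g x) :
    X V (fun y => f y * g y) x = f x * X V g x + X V f x * g x := by
  rw [X, fderiv_fun_mul' hf hg]; rfl

theorem Rot.curv_gauge (r : Rot e e' O x) (h : FrameAt e c x) (h' : FrameAt e' c' x)
    {ω ω' : ι → E → A} {a b : E → A} (hω : ∀ i, DifferentiableAt ℝ (ω i) x)
    (ha : ContDiffAt ℝ 2 a x) (hb : DifferentiableAt ℝ b x) (hab : ∀ᶠ y in 𝓝 x, a y * b y = 1)
    (hba : b x * a x = 1) (hω' : ∀ᶠ y in 𝓝 x, ∀ i,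
      ω' i y = b y * ((∑ p, O p i y • ω p y) * a y + X (e' i) a y)) (i j : ι) :
    curv e' c' ω' i j x = b x * (∑ p, ∑ q, (O p i x * O q j x) • curv e c ω p q x) * a x := by
  have ha' := ha.differentiableAt two_ne_zero
  let B : ι → E → A := fun i y => ∑ p, O p i y • ω p y
  have hB : ∀ i, DifferentiableAt ℝ (B i) x := fun i =>
    DifferentiableAt.fun_sum fun p _ => (r.d p i).fun_smul (hω p)
  have h1 : ∀ i, X (e' i) b x = -(b x * X (e' i) a x * b x) := fun i => by
    have h2 := X_congr (V := e' i) hab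
    rw [X_const, X_mul' ha' hb] at h2
    have h3 := congrArg (b x * ·) h2
    simp only [mul_add, ← mul_assoc, hba, one_mul, mul_zero] at h3
    exact eq_neg_of_add_eq_zero_left h3
  have h2 : ∀ i j, X (e' i) (ω' j) x = b x * (B j x * X (e' i) a x + X (e' i) (B j) x * a x +
      X (e' i) (X (e' j) a) x) - b x * X (e' i) a x * b x * (B j x * a x + X (e' j) a x) :=
    fun i j => by
      rw [X_congr (hω'.mono fun y hy => hy j), X_mul' hb (((hB j).fun_mul ha').fun_add
        (diff_X (h'.de j) ha)), X_add ((hB j).fun_mul ha') (diff_X (h'.de j) ha), X_mul' (hB j) ha',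
        h1, neg_mul, sub_eq_add_neg]
  have h3 : X (e' i) (X (e' j) a) x = X (e' j) (X (e' i) a) x + ∑ m, c' i j m x • X (e' m) a x := by
    rw [← sub_eq_iff_eq_add', X_comm (h'.de i) (h'.de j) ha, (h'.br i j).self_of_nhds]
    simp only [map_sum, map_smul, X]
  have h4 : ∀ i j, X (e' i) (B j) x = ∑ p, ∑ q, (O p i x * O q j x) • X (e p) (ω q) x +
      ∑ q, X (e' i) (O q j) x • ω q x := fun i j => by
    rw [X_sum fun q _ => (r.d q j).fun_smul (hω q)]
    simp only [X_smul (r.d _ _) (hω _), sum_add_distrib, r.X_eq i (ω _), smul_sum, smul_smul]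
    rw [sum_comm]
    simp only [mul_comm]
  have h5 : ∑ p, ∑ q, (O p i x * O q j x) • curv e c ω p q x = X (e' i) (B j) x -
      X (e' j) (B i) x + (B i x * B j x - B j x * B i x) - ∑ m, c' i j m x • B m x := by
    have h6 : ∑ m, c' i j m x • B m x = ∑ d, (∑ m, c' i j m x * O d m x) • ω d x := by
      simp only [B, sum_smul, smul_sum, smul_smul]
      exact sum_comm
    have h7 : ∑ d, (∑ p, ∑ q, O p i x * O q j x * c p q d x) • ω d x =
        ∑ p, ∑ q, (O p i x * O q j x) • ∑ m, c p q m x • ω m x := by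
      simp only [sum_smul, smul_sum, smul_smul]
      rw [sum_comm]
      exact sum_congr rfl fun p _ => sum_comm
    have h8 : ∑ p, ∑ q, (O p j x * O q i x) • X (e p) (ω q) x =
        ∑ p, ∑ q, (O p i x * O q j x) • X (e q) (ω p) x := by
      rw [sum_comm]; simp only [mul_comm]
    have h9 : B i x * B j x = ∑ p, ∑ q, (O p i x * O q j x) • (ω p x * ω q x) := by
      simp only [B, sum_mul_sum, smul_mul_smul_comm]
    have h10 : B j x * B i x = ∑ p, ∑ q, (O p i x * O q j x) • (ω q x * ω p x) := by
      simp only [B, sum_mul_sum, smul_mul_smul_comm]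
      rw [sum_comm]; simp only [mul_comm]
    rw [h6, h4, h4, h8, h9, h10]
    simp only [r.br h h', add_smul, sub_smul, sum_add_distrib, sum_sub_distrib, h7, curv, smul_sub,
      smul_add]
    abel
  have h6 : ∀ z w : A, b x * z * (b x * w) = b x * z * b x * w := fun _ _ => by noncomm_ring
  have h7 : ∀ z : A, a x * (b x * z) = z := fun z => by rw [← mul_assoc, hab.self_of_nhds, one_mul]
  have h8 : ∑ m, c' i j m x • ω' m x = b x * (∑ m, c' i j m x • B m x) * a x +
      b x * ∑ m, c' i j m x • X (e' m) a x := by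
    simp only [hω'.self_of_nhds, mul_add, smul_add, sum_add_distrib, mul_sum, sum_mul,
      mul_smul_comm, smul_mul_assoc, mul_assoc, B]
  rw [h5, curv, h2, h2, h3, h8, hω'.self_of_nhds, hω'.self_of_nhds]
  change _ - _ + (b x * (B i x * a x + _) * (b x * (B j x * a x + _)) -
    b x * (B j x * a x + _) * (b x * (B i x * a x + _))) - _ = _
  simp only [mul_add, add_mul, mul_sub, sub_mul, mul_assoc, h7]
  abel

end curv

section matrix
open scoped Matrix.Norms.Operator

lemma contDiffAt_of {n : WithTop ℕ∞} {M : ι → ι → E → ℝ} (h : ∀ i j, ContDiffAt ℝ n (M i j) x) :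
    ContDiffAt ℝ n (fun y => (Matrix.of fun i j => M i j y : Matrix ι ι ℝ)) x := by
  have : (fun y => (Matrix.of fun i j => M i j y : Matrix ι ι ℝ)) =
      fun y => ∑ i, ∑ j, M i j y • Matrix.single i j (1 : ℝ) := funext fun y => by
    rw [Matrix.matrix_eq_sum_single (Matrix.of _)]
    simp
  rw [this]
  exact ContDiffAt.sum fun i _ => ContDiffAt.sum fun j _ => (h i j).smul contDiffAt_const

lemma X_of {V : E → E} {M : E → Matrix ι ι ℝ} (h : DifferentiableAt ℝ M x) (i j : ι) :
    X V M x i j = X V (fun y => M y i j) x :=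
  (X_map (LinearMap.toContinuousLinearMap (Matrix.entryLinearMap ℝ ℝ i j)) h).symm

variable [FiniteDimensional ℝ E]

/-- The curvature is a tensor. -/
theorem Rot.riem_gauge (b : Basis ι ℝ E) (r : Rot e e' O x) (h : FrameAt e c x)
    (h' : FrameAt e' c' x) (i j k l : ι) : riem e' c' i j k l x =
      ∑ p, ∑ q, ∑ s, ∑ t, O p i x * O q j x * O s k x * O t l x * riem e c p q s t x := by
  have h1 : ∀ {e : ι → E → E} {c : ι → ι → ι → E → ℝ}, FrameAt e c x → ∀ i, DifferentiableAt ℝ
      (fun y => (Matrix.of fun k l => chr c i l k y : Matrix ι ι ℝ)) x := fun h i =>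
    (contDiffAt_of fun k l => contDiffAt_chr (h.c1 b) i l k).differentiableAt one_ne_zero
  have h2 : ∀ {e : ι → E → E} {c : ι → ι → ι → E → ℝ}, FrameAt e c x → ∀ i j k l,
      curv e c (fun i y => (Matrix.of fun k l => chr c i l k y : Matrix ι ι ℝ)) i j x l k =
        riem e c i j k l x := fun h i j k l => by
    simp only [curv, riem, Matrix.sub_apply, Matrix.add_apply, X_of (h1 h _), Matrix.of_apply,
      Matrix.mul_apply, Matrix.sum_apply, Matrix.smul_apply, smul_eq_mul, sum_sub_distrib,
      mul_comm]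
    ring
  have ha := contDiffAt_of r.sm
  have h3 := r.curv_gauge h h' (ω' := fun i y => Matrix.of fun k l => chr c' i l k y) (h1 h) ha
    ((contDiffAt_of fun i p => r.sm p i).differentiableAt two_ne_zero)
    (r.eventually.mono fun y hy => by
      ext p q; simpa [Matrix.mul_apply, Matrix.one_apply] using hy.on' p q)
    (by ext p q; simpa [Matrix.mul_apply, Matrix.one_apply] using r.on.self_of_nhds p q)
    (by
      filter_upwards [r.eventually, h.eventually b, h'.eventually b] with y r h h' i
      ext k l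
      simp only [Matrix.of_apply, r.chr_gauge h h', Matrix.mul_apply, Matrix.add_apply,
        X_of ((contDiffAt_of r.sm).differentiableAt two_ne_zero), Matrix.sum_apply,
        Matrix.smul_apply, smul_eq_mul, mul_add, sum_add_distrib, mul_sum, sum_mul]
      congr 1
      · symm
        refine sum_comm.trans ?_
        exact sum_congr rfl fun p _ => sum_comm.trans
          (sum_congr rfl fun q _ => sum_congr rfl fun d _ => by ring)
      · exact sum_congr rfl fun d _ => mul_comm _ _) i j
  rw [← h2 h', h3]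
  simp only [Matrix.mul_apply, Matrix.of_apply, Matrix.sum_apply, Matrix.smul_apply, h2 h,
    smul_eq_mul, mul_sum, sum_mul]
  refine sum_comm.trans (sum_congr rfl fun p _ => sum_comm.trans ?_)
  exact sum_congr rfl fun q _ => sum_congr rfl fun s _ => sum_congr rfl fun t _ => by ring

end matrix

/-- The scalar curvature does not depend on the orthonormal frame. -/
theorem Rot.scal_gauge [FiniteDimensional ℝ E] (b : Basis ι ℝ E) (r : Rot e e' O x)
    (h : FrameAt e c x) (h' : FrameAt e' c' x) : scal e' c' x = scal e c x := by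
  have h1 : ∀ f : ι → ι → ℝ, ∑ i, ∑ p, ∑ t, O p i x * O t i x * f p t = ∑ p, f p p := fun f => by
    rw [sum_comm]
    refine sum_congr rfl fun p _ => sum_comm.trans ?_
    simp only [← sum_mul, r.on', ite_mul, one_mul, zero_mul, sum_ite_eq, mem_univ, if_true]
  simp only [scal, r.riem_gauge b h h']
  rw [← h1 fun p t => ∑ q, riem e c p q q t x]
  refine sum_congr rfl fun i _ => sum_comm.trans (sum_congr rfl fun p _ => ?_)
  symm
  refine (sum_congr rfl fun t _ => (mul_sum _ _ _).trans
    (h1 fun q s => O p i x * O t i x * riem e c p q s t x).symm).trans ?_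
  refine sum_comm.trans (sum_congr rfl fun j _ => sum_comm.trans (sum_congr rfl fun q _ => ?_))
  exact sum_comm.trans (sum_congr rfl fun s _ => sum_congr rfl fun t _ => by ring)

/-- The density does not depend on the orthonormal frame. -/
theorem rho_gauge [FiniteDimensional ℝ E] (b : Basis ι ℝ E)
    (h : ∀ i, e' i x = ∑ p, O p i x • e p x)
    (h' : ∀ i j, ∑ p, O p i x * O p j x = if i = j then 1 else 0) : rho b e' x = rho b e x := by
  let M : Matrix ι ι ℝ := Matrix.of fun p i => O p i x
  have h1 : M.transpose * M = 1 := by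
    ext i j; simpa [M, Matrix.mul_apply, Matrix.one_apply] using h' i j
  have h2 : |M.det| = 1 := by
    have := congrArg Matrix.det h1
    rw [Matrix.det_mul, Matrix.det_transpose, Matrix.det_one, mul_self_eq_one_iff] at this
    rcases this with h | h <;> simp [h]
  have h3 : b.toMatrix (fun i => e' i x) = b.toMatrix (fun i => e i x) * M := by
    ext k i; simp [M, Basis.toMatrix_apply, Matrix.mul_apply, h, mul_comm]
  rw [rho, rho, Basis.det_apply, Basis.det_apply, h3, Matrix.det_mul, abs_mul, h2, mul_one]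

namespace Dat

variable {D : Dat E S ι} {a a' : E → S →L[ℝ] S} {u : E → S}

/-- The logarithmic derivative of a lift of the rotation, up to an operator commuting with the
Clifford matrices. -/
theorem lift_comm (hc : D.Cl) (r : Rot e e' O x) (ha : DifferentiableAt ℝ a x)
    (h1 : a' x * a x = 1) (h2 : a x * a' x = 1)
    (h3 : ∀ᶠ y in 𝓝 x, ∀ i, a y * D.γ i = (∑ p, O p i y • D.γ p) * a y) (V : E → E) (j : ι) :
    Commute (a' x * X V a x - lam D.σ D.γ fun j k => ∑ d, X V (O d j) x * O d k x) (D.γ j) := by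
  have h4 := X_congr (V := V) (h3.mono fun y hy => hy j)
  have h5 : ∀ p, DifferentiableAt ℝ (fun y => O p j y • D.γ p) x := fun p => (r.d p j).smul_const _
  rw [X_mul' ha (differentiableAt_const _), X_const, X_mul' (.fun_sum fun p _ => h5 p) ha,
    X_sum fun p _ => h5 p] at h4
  simp only [X_smul (r.d _ _) (differentiableAt_const _), X_const, smul_zero, zero_add,
    mul_zero] at h4
  have h6 : ∀ q, D.γ q * a x = a x * ∑ k, O q k x • D.γ k := fun q => by
    simp only [mul_sum, mul_smul_comm, h3.self_of_nhds, sum_mul, smul_mul_assoc, smul_sum, smul_smul]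
    rw [sum_comm]
    simp only [← sum_smul, r.on', ite_smul, one_smul, zero_smul, sum_ite_eq, mem_univ, if_true]
  have h7 : ∑ p, O p j x • D.γ p = a x * D.γ j * a' x := by
    rw [h3.self_of_nhds, mul_assoc, h2, mul_one]
  have h8 := hc.rel.lam_gam (M := fun j k => ∑ d, X V (O d j) x * O d k x) (r.skew V) j
  have h9 : a' x * ((∑ p, X V (O p j) x • D.γ p) * a x) =
      ∑ k, (∑ d, X V (O d j) x * O d k x) • D.γ k := by
    simp only [sum_mul, smul_mul_assoc, h6, mul_sum, mul_smul_comm, ← mul_assoc, h1, one_mul,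
      smul_sum, smul_smul, sum_smul]
    exact sum_comm
  rw [Commute, SemiconjBy, sub_mul, mul_sub, mul_assoc, h4, mul_add, h9, h7, ← h8]
  simp only [← mul_assoc, h1, one_mul]
  abel

/-- Gauge covariance of the spin connection. -/
theorem nab_gauge (r : Rot D.e e' O x) (h : FrameAt D.e D.c x) (h' : FrameAt e' c' x)
    (ha : DifferentiableAt ℝ a x) (hu : DifferentiableAt ℝ u x)
    (h3 : ∀ i, a x * D.γ i = (∑ p, O p i x • D.γ p) * a x) (i : ι)
    (h4 : X (e' i) a x = a x * lam D.σ D.γ fun j k => ∑ d, X (e' i) (O d j) x * O d k x) :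
    a x ((⟨D.σ, D.γ, e', c'⟩ : Dat E S ι).nab i u x) =
      ∑ p, O p i x • D.nab p (fun y => a y (u y)) x := by
  have h5 : a x * lam D.σ D.γ (fun j k => ∑ p, ∑ q, ∑ d, O p i x * O q j x * O d k x *
      chr D.c p q d x) = (∑ p, O p i x • D.con p x) * a x := by
    have h6 : ∀ q d, ∑ j, ∑ k, (O q j x * O d k x) • (a x * (D.γ j * D.γ k)) =
        D.γ q * D.γ d * a x := fun q d => by
      have h7 : ∀ q, ∑ k, O q k x • (a x * D.γ k) = D.γ q * a x := fun q => by
        simp only [h3, sum_mul, smul_mul_assoc, smul_sum, smul_smul]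
        rw [sum_comm]
        simp only [← sum_smul, r.on', ite_smul, one_smul, zero_smul, sum_ite_eq, mem_univ, if_true]
      rw [mul_assoc, ← h7 d, mul_sum]
      simp only [mul_smul_comm, ← mul_assoc, ← h7 q, sum_mul, smul_mul_assoc, smul_sum, smul_smul]
      rw [sum_comm]
      simp only [mul_comm]
    simp only [lam_sum, mul_sum, sum_mul, con]
    refine sum_congr rfl fun p _ => ?_
    simp only [lam, mul_smul_comm, smul_mul_assoc, sum_mul, mul_sum, ← h6, smul_sum, smul_smul]
    refine sum_congr rfl fun q _ => sum_congr rfl fun d _ => sum_congr rfl fun j _ =>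
      sum_congr rfl fun k _ => ?_
    congr 1; ring
  have h6 := congrArg (· (u x)) h5
  have h7 := congrArg (· (u x)) h4
  simp only [mul_apply_eq_comp, _root_.sum_apply, _root_.smul_apply] at h6 h7
  simp only [nab, con, r.chr_gauge h h', lam_add, map_add, _root_.add_apply, h6, ← h7, smul_add,
    sum_add_distrib]
  rw [← r.X_eq, X_clm ha hu]
  abel

/-- Gauge covariance of the Dirac operator. -/
theorem dir_gauge (r : Rot D.e e' O x) (h : FrameAt D.e D.c x) (h' : FrameAt e' c' x)
    (ha : DifferentiableAt ℝ a x) (hu : DifferentiableAt ℝ u x)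
    (h3 : ∀ i, a x * D.γ i = (∑ p, O p i x • D.γ p) * a x)
    (h4 : ∀ i, X (e' i) a x = a x * lam D.σ D.γ fun j k => ∑ d, X (e' i) (O d j) x * O d k x) :
    a x ((⟨D.σ, D.γ, e', c'⟩ : Dat E S ι).dir u x) = D.dir (fun y => a y (u y)) x := by
  have h5 : ∀ i v, a x (D.γ i v) = ∑ p, O p i x • D.γ p (a x v) := fun i v => by
    simpa [mul_apply_eq_comp, _root_.sum_apply] using congrArg (· v) (h3 i)
  simp only [dir, map_sum, h5, nab_gauge r h h' ha hu h3 _ (h4 _), map_smul, smul_sum, smul_smul]
  rw [sum_comm]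
  refine sum_congr rfl fun p _ => sum_comm.trans ?_
  simp only [← sum_smul, r.on', ite_smul, one_smul, zero_smul, sum_ite_eq, mem_univ, if_true]

end Dat

end Pool.Agent.Lib.LICH
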